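import Pool.Agent.H805R3.Kk.Int

set_option autoImplicit false

/-!
# MP_5168f5: the Kakeya maximal estimates for rough families of lines of bounded overlap

Work in `ℝ^{d+1} = ℝ^d × ℝ` (`Space d`), `n = d + 1 ≥ 2`.  For `v` in the closed unit ball of `ℝ^d`
the line number `v` of the family given by `g : ℝ^d → ℝ^d` is `{(g v + s v, s) : s ∈ ℝ}`; its
direction is `(v, 1)`.  `lineMax δ b f v` is the supremum of the averages of `|f|` over the
`δ`-tubes of length one with axis on the line number `v` of the family `b`.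

The hypothesis is that up to an error `δ` the family is given by a map `g` which is Lipschitz on
each of countably many measurable sets that cover almost all directions (no bound on the Lipschitz
constants; equivalently, `g` is approximately differentiable almost everywhere, e.g. `g` is of
bounded variation) and that at almost every height `t ∈ T` almost every point of height `t` lies on
at most `N` of the lines of `g`.
-/

open MeasureTheory Set Filter Topology ENNReal NNReal Metric

namespace Pool.Agent.Results.MP_5168f5_an.BoundedOverlap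

open Pool.Agent.H803R2.KakFTO Pool.Agent.H805R3.Kk

/-- `f` vanishes at the heights outside `T`. -/
def VanishesOff {d : ℕ} (T : Set ℝ) (f : Space d → ℝ) : Prop :=
  ∀ (y : Vec d) (t : ℝ), t ∉ T → f (WithLp.toLp 2 (y, t)) = 0

/-- On almost all of the set `B` of directions, `b` is `δ`-close to a family `g` that is Lipschitz
on countably many pieces and of overlap at most `N` for the heights in `T`. -/
def NearOverlap {d : ℕ} (N : ℕ) (T : Set ℝ) (δ : ℝ) (B : Set (Vec d)) (b : Vec d → Vec d) : Prop :=
  ∃ (g : Vec d → Vec d) (B' : Set (Vec d)), MeasurableSet B' ∧ B' ⊆ B ∧ volume (B \ B') = 0 ∧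
    LipPieces B' g ∧ OverlapLE N T B' g ∧ ∀ v ∈ B', ‖b v - g v‖ ≤ δ

/-- The loss: `(1 + log (1/δ))^(n-1)` at the critical exponent `p = n`, none for `p > n`. -/
noncomputable def loss (d : ℕ) (p δ : ℝ) : ℝ :=
  if p = d + 1 then (1 + Real.log (1 / δ)) ^ d else 1

/-- **Kakeya maximal estimates for families of lines of bounded overlap.**  In `ℝ^n`, `n = d + 1`,
for every `p ≥ n`: if `b` is `δ`-close to a family of lines of overlap at most `N` at the heights
in `T` given by a map that is Lipschitz on countably many pieces, and `f` lives at heights in `T`,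
then `∫_B (M_δ f)^p ≤ C N loss ∫ |f|^p`, with `loss = (1 + log (1/δ))^(n-1)` for `p = n` and
`loss = 1` for `p > n`.  The constant depends on `n` and `p` only. -/
theorem result (d : ℕ) (hd : 1 ≤ d) (p : ℝ) (hp : (d : ℝ) + 1 ≤ p) :
    ∃ C : ℝ, 0 < C ∧ ∀ (N : ℕ) (T : Set ℝ) (B : Set (Vec d)) (b : Vec d → Vec d) (δ : ℝ)
      (f : Space d → ℝ), 1 ≤ N → MeasurableSet T → B ⊆ closedBall 0 1 → 0 < δ → δ < 1 →
      NearOverlap N T δ B b → AEMeasurable f volume → VanishesOff T f →
      ∫⁻ v in B, lineMax δ b f v ^ p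
        ≤ ENNReal.ofReal (C * N * loss d p δ) * ∫⁻ y, ‖f y‖ₑ ^ p := by
  have hred : ∀ (B B' : Set (Vec d)), B' ⊆ B → volume (B \ B') = 0 → ∀ F : Vec d → ℝ≥0∞,
      ∫⁻ v in B, F v = ∫⁻ v in B', F v := by
    intro B B' hB'B hB'z F
    refine (setLIntegral_congr ?_).symm
    have h3 : volume (B' \ B) = 0 := by
      rw [sdiff_eq_empty.2 hB'B]; simp
    exact (ae_eq_set).2 ⟨h3, hB'z⟩
  by_cases hpd : p = d + 1
  · refine ⟨cst d, cst_pos hd, ?_⟩
    rintro N T B b δ f hN hT hB hδ hδ1 ⟨g, B', hB'm, hB'B, hB'z, hg, hgN, hbg⟩ hf hfT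
    have h := overlap hd hN hT hB'm (hB'B.trans hB) hg hgN hbg hδ hδ1 hf hfT
    rw [hred B B' hB'B hB'z]
    have e : p = ((d + 1 : ℕ) : ℝ) := by rw [hpd]; push_cast; ring
    rw [loss, if_pos hpd]
    simp only [e, ENNReal.rpow_natCast]
    exact h
  · have hp' : (d:ℝ) + 1 < p := lt_of_le_of_ne hp (fun h => hpd h.symm)
    refine ⟨cstp d p, (cstp_spec hd hp').1, ?_⟩
    rintro N T B b δ f hN hT hB hδ hδ1 ⟨g, B', hB'm, hB'B, hB'z, hg, hgN, hbg⟩ hf hfT
    have h := tubes_p hd hp' hT hB'm (hB'B.trans hB) hg hgN hbg hδ hδ1 hf hfT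
    rw [hred B B' hB'B hB'z, loss, if_neg hpd, mul_one]
    exact h

end Pool.Agent.Results.MP_5168f5_an.BoundedOverlap
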