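import Mathlib
import Pool.Agent.H147R3.KM.Nine
set_option autoImplicit false

/-!
# MP_5168f5: the Kakeya maximal estimate for generic dilations of the positions

Let `n = d + 3`.  Points of `ℝ^n` are written `(x, t)` with `x ∈ ℝ^(n-1)`, `t ∈ ℝ`.  A Borel family
of lines, one for each direction `(v, 1)`, `v ∈ ℝ^(n-1)`, is given by the points `(p v, 0)` where the
lines cross the hyperplane `t = 0`.  Multiply the last `n - 2` coordinates of all these points by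
`m_1, ..., m_(n-2)` and keep all the directions: this is the family of lines `ℓ_m(v)`.  Let
`M f (v)` be the supremum of the averages of `f` over the tubes of length `1` and radius `δ` whose
axis lies on `ℓ_m(v)`.

There is a weight `W(m, v)`, with integral at most `1` over `|m| ≤ L`, `v` in a box, such that for
all `m`, all `δ` and all `f` the Kakeya maximal estimate `L^r → L^r(1/W)`, `r ≥ n`, holds with loss
`δ^(-ε)`; the constant does not depend on the family `p`.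
-/

namespace Pool.Agent.Results.MP_5168f5_an.GenericDilates

open MeasureTheory Set Metric
open scoped ENNReal NNReal

/-- The point at height `t` of the line in direction `(v, 1)` through
`((p v)_0, m_0 (p v)_1, ..., m_d (p v)_(d+1), 0)`. -/
def linePoint {d : ℕ} (p : (Fin (d + 2) → ℝ) → (Fin (d + 2) → ℝ)) (m : Fin (d + 1) → ℝ)
    (v : Fin (d + 2) → ℝ) (t : ℝ) : (Fin (d + 2) → ℝ) × ℝ :=
  (fun j => (Fin.cons 1 m : Fin (d + 2) → ℝ) j * p v j + t * v j, t)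

/-- The Euclidean length of `(v, 1)`. -/
noncomputable def len {d : ℕ} (v : Fin (d + 2) → ℝ) : ℝ := Real.sqrt (∑ j, v j ^ 2 + 1)

/-- The inner product of `w` with the unit vector `e = (v, 1) / |(v, 1)|`. -/
noncomputable def axial {d : ℕ} (v : Fin (d + 2) → ℝ) (w : (Fin (d + 2) → ℝ) × ℝ) : ℝ :=
  (∑ j, w.1 j * v j + w.2) / len v

/-- The closed tube `T_e^δ(a)` of length `1` and radius `δ` with centre `a` and axis in direction
`e = (v, 1) / |(v, 1)|`: all `y` with `|⟨y - a, e⟩| ≤ 1/2` and `|(y - a) - ⟨y - a, e⟩ e| ≤ δ`. -/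
def tube {d : ℕ} (v : Fin (d + 2) → ℝ) (a : (Fin (d + 2) → ℝ) × ℝ) (δ : ℝ) :
    Set ((Fin (d + 2) → ℝ) × ℝ) :=
  {y | |axial v (y - a)| ≤ 1 / 2 ∧
    ∑ j, ((y - a).1 j - axial v (y - a) * (v j / len v)) ^ 2 +
      ((y - a).2 - axial v (y - a) * (1 / len v)) ^ 2 ≤ δ ^ 2}

/-- The maximal function over the tubes with axis on the line number `v`
(`δ^(n-1)` is comparable to the volume of the tube). -/
noncomputable def lineMax {d : ℕ} (p : (Fin (d + 2) → ℝ) → (Fin (d + 2) → ℝ))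
    (m : Fin (d + 1) → ℝ) (δ : ℝ) (f : (Fin (d + 2) → ℝ) × ℝ → ℝ≥0∞) (v : Fin (d + 2) → ℝ) :
    ℝ≥0∞ :=
  ⨆ s : ℝ, ENNReal.ofReal ((δ ^ (d + 2))⁻¹) * ∫⁻ y in tube v (linePoint p m v s) δ, f y

/-- The box `[-N, N]^(n-1)` of directions. -/
def box (d N : ℕ) : Set (Fin (d + 2) → ℝ) := {v | ∀ j, |v j| ≤ N}

/-- `μ (B(x, ρ)) ≤ A ρ^γ` for all balls. -/
def Frostman {d : ℕ} (A γ : ℝ) (μ : Measure (Fin (d + 1) → ℝ)) : Prop :=
  ∀ x : Fin (d + 1) → ℝ, ∀ ρ : ℝ, 0 < ρ → μ (closedBall x ρ) ≤ ENNReal.ofReal (A * ρ ^ γ)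

lemma box_eq (d N : ℕ) : box d N = Pool.Agent.H147R3.KH.Bx d (N : ℝ) := by
  ext v
  constructor
  · intro h j _
    exact abs_le.1 (h j)
  · intro h j
    exact abs_le.2 (h j (Set.mem_univ j))

lemma len_pos {d : ℕ} (v : Fin (d + 2) → ℝ) : 0 < len v := by
  unfold len
  have : 0 ≤ ∑ j, v j ^ 2 := Finset.sum_nonneg (fun j _ => sq_nonneg _)
  exact Real.sqrt_pos.2 (by linarith)

/-- the tubes lie in the tubes of the library -/
lemma tube_sub {d : ℕ} (N : ℕ) (p : (Fin (d + 2) → ℝ) → (Fin (d + 2) → ℝ))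
    (m : Fin (d + 1) → ℝ) (δ : ℝ) (hδ : 0 < δ) (v : Fin (d + 2) → ℝ) (hv : v ∈ box d N) (s : ℝ)
    (y : (Fin (d + 2) → ℝ) × ℝ) (hy : y ∈ tube v (linePoint p m v s) δ) (hyN : |y.2| ≤ N) :
    y ∈ Pool.Agent.H147R3.KM.tb p (N + 2) ((N + 1) * δ) m v := by
  have hN : (0 : ℝ) ≤ N := Nat.cast_nonneg N
  refine ⟨by linarith, fun j => ?_⟩
  have hl := len_pos v
  set a := linePoint p m v s with ha
  set u : ℝ := axial v (y - a) with hu
  have h1 := hy.2
  have h2 : ∀ k, ((y - a).1 k - u * (v k / len v)) ^ 2 ≤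
      ∑ j, ((y - a).1 j - u * (v j / len v)) ^ 2 := fun k =>
    Finset.single_le_sum (f := fun j => ((y - a).1 j - u * (v j / len v)) ^ 2)
      (fun j _ => sq_nonneg _) (Finset.mem_univ k)
  have h3 : 0 ≤ ((y - a).2 - u * (1 / len v)) ^ 2 := sq_nonneg _
  have h4 : 0 ≤ ∑ j, ((y - a).1 j - u * (v j / len v)) ^ 2 :=
    Finset.sum_nonneg (fun j _ => sq_nonneg _)
  have h5 : |(y - a).1 j - u * (v j / len v)| ≤ δ := by
    apply abs_le_of_sq_le_sq _ hδ.le
    linarith [h2 j]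
  have h6 : |(y - a).2 - u * (1 / len v)| ≤ δ := by
    apply abs_le_of_sq_le_sq _ hδ.le
    linarith
  have h7 : y.1 j - (Pool.Agent.H147R3.KH.gam p m (v, y.2)).1 j =
      ((y - a).1 j - u * (v j / len v)) - ((y - a).2 - u * (1 / len v)) * v j := by
    simp only [Pool.Agent.H147R3.KH.gam, ha, linePoint, Prod.fst_sub, Prod.snd_sub, Pi.sub_apply]
    ring
  rw [h7]
  have h8 : |v j| ≤ N := hv j
  calc |((y - a).1 j - u * (v j / len v)) - ((y - a).2 - u * (1 / len v)) * v j| ≤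
        |(y - a).1 j - u * (v j / len v)| + |((y - a).2 - u * (1 / len v)) * v j| := abs_sub _ _
    _ ≤ δ + δ * N := by
        rw [abs_mul]
        gcongr
    _ = _ := by ring

lemma tube_meas {d : ℕ} (v : Fin (d + 2) → ℝ) (a : (Fin (d + 2) → ℝ) × ℝ) (δ : ℝ) :
    MeasurableSet (tube v a δ) := by
  have h0 : Measurable fun y : (Fin (d + 2) → ℝ) × ℝ => axial v (y - a) := by
    unfold axial
    fun_prop
  have h1 : Measurable fun y : (Fin (d + 2) → ℝ) × ℝ =>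
      ∑ j, ((y - a).1 j - axial v (y - a) * (v j / len v)) ^ 2 +
      ((y - a).2 - axial v (y - a) * (1 / len v)) ^ 2 := by fun_prop
  have e1 : MeasurableSet {y : (Fin (d + 2) → ℝ) × ℝ | |axial v (y - a)| ≤ 1 / 2} :=
    measurableSet_le h0.abs measurable_const
  have e2 : MeasurableSet {y : (Fin (d + 2) → ℝ) × ℝ |
      ∑ j, ((y - a).1 j - axial v (y - a) * (v j / len v)) ^ 2 +
      ((y - a).2 - axial v (y - a) * (1 / len v)) ^ 2 ≤ δ ^ 2} :=
    measurableSet_le h1 measurable_const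
  exact e1.inter e2

lemma lineMax_le {d : ℕ} (N : ℕ) (p : (Fin (d + 2) → ℝ) → (Fin (d + 2) → ℝ)) (hp : Measurable p)
    (m : Fin (d + 1) → ℝ) (δ : ℝ) (hδ : 0 < δ) (f : (Fin (d + 2) → ℝ) × ℝ → ℝ≥0∞)
    (hf0 : ∀ y : (Fin (d + 2) → ℝ) × ℝ, (N : ℝ) < |y.2| → f y = 0)
    (v : Fin (d + 2) → ℝ) (hv : v ∈ box d N) :
    lineMax p m δ f v ≤ ENNReal.ofReal ((δ ^ (d + 2))⁻¹) *
      ∫⁻ y in Pool.Agent.H147R3.KM.tb p (N + 2) ((N + 1) * δ) m v, f y := by
  refine iSup_le (fun s => mul_le_mul' le_rfl ?_)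
  have htb := Pool.Agent.H147R3.KM.tb_m hp ((N : ℝ) + 2) (((N : ℝ) + 1) * δ) m v
  calc ∫⁻ y in tube v (linePoint p m v s) δ, f y ≤
        ∫⁻ y in tube v (linePoint p m v s) δ,
          (Pool.Agent.H147R3.KM.tb p (N + 2) ((N + 1) * δ) m v).indicator f y := by
        apply setLIntegral_mono' (tube_meas _ _ _)
        intro y hy
        rcases lt_or_ge (N : ℝ) |y.2| with h | h
        · rw [hf0 y h]
          exact zero_le
        · rw [indicator_of_mem (tube_sub N p m δ hδ v hv s y hy h)]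
    _ ≤ ∫⁻ y, (Pool.Agent.H147R3.KM.tb p (N + 2) ((N + 1) * δ) m v).indicator f y :=
        setLIntegral_le_lintegral _ _
    _ = _ := lintegral_indicator htb _

/-- **The Kakeya maximal estimate for generically dilated positions.** -/
theorem result (d N : ℕ) (A γ L ε r : ℝ) (hA : 0 ≤ A) (hγ0 : 0 ≤ γ) (hγ : γ ≤ d + 1)
    (hL : 0 < L) (hε : 0 < ε) (hr : 2 + γ ≤ r) :
    ∃ C : ℝ, ∀ μ : Measure (Fin (d + 1) → ℝ), Frostman A γ μ →
      ∀ p : (Fin (d + 2) → ℝ) → (Fin (d + 2) → ℝ), Measurable p →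
      ∃ W : (Fin (d + 1) → ℝ) → (Fin (d + 2) → ℝ) → ℝ≥0∞, Measurable (Function.uncurry W) ∧
        ∫⁻ m in closedBall 0 L, (∫⁻ v in box d N, W m v) ∂μ ≤ 1 ∧
        ∀ (m : Fin (d + 1) → ℝ) (δ : ℝ), 0 < δ → δ ≤ 1 →
        ∀ f : (Fin (d + 2) → ℝ) × ℝ → ℝ≥0∞, Measurable f →
        (∀ y : (Fin (d + 2) → ℝ) × ℝ, (N : ℝ) < |y.2| → f y = 0) →
        ∫⁻ v in box d N, lineMax p m δ f v ^ r / W m v ≤
          ENNReal.ofReal (C * δ ^ (-(d + 1 - γ) - ε)) * ∫⁻ y, f y ^ r := by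
  have hbm : MeasurableSet (box d N) := by
    rw [box_eq]
    exact Pool.Agent.H147R3.KH.Bx_meas _
  have hr0 : 0 ≤ r := by linarith
  obtain ⟨C, hC0, hC⟩ := Pool.Agent.H147R3.KM.mainC d N A γ L ε r hA hγ0 hγ hL hε hr
  refine ⟨C, ?_⟩
  intro μ hμ p hp
  obtain ⟨W, hWm, hW1, hW⟩ := hC μ hμ p hp
  rw [← box_eq] at hW1
  refine ⟨W, hWm, hW1, ?_⟩
  intro m δ hδ hδ1 f hf hf0
  have hmain := hW m δ hδ hδ1 f hf
  rw [← box_eq] at hmain
  have e1 : ENNReal.ofReal ((δ ^ (d + 2))⁻¹) ^ r = ENNReal.ofReal (δ ^ (-(((d : ℝ) + 2) * r))) := by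
    rw [ENNReal.ofReal_rpow_of_nonneg (by positivity) hr0]
    congr 1
    rw [Real.rpow_neg hδ.le, Real.inv_rpow (by positivity), ← Real.rpow_natCast,
      ← Real.rpow_mul hδ.le]
    push_cast
    rfl
  calc ∫⁻ v in box d N, lineMax p m δ f v ^ r / W m v ≤
        ∫⁻ v in box d N, ENNReal.ofReal (δ ^ (-(((d : ℝ) + 2) * r))) *
        ((∫⁻ y in Pool.Agent.H147R3.KM.tb p (N + 2) ((N + 1) * δ) m v, f y) ^ r / W m v) := by
        apply setLIntegral_mono' hbm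
        intro v hv
        rw [← mul_div_assoc, ← e1, ← ENNReal.mul_rpow_of_nonneg _ _ hr0]
        exact ENNReal.div_le_div_right (ENNReal.rpow_le_rpow
          (lineMax_le N p hp m δ hδ f hf0 v hv) hr0) _
    _ = ENNReal.ofReal (δ ^ (-(((d : ℝ) + 2) * r))) * ∫⁻ v in box d N,
        (∫⁻ y in Pool.Agent.H147R3.KM.tb p (N + 2) ((N + 1) * δ) m v, f y) ^ r / W m v :=
        lintegral_const_mul' _ _ ENNReal.ofReal_ne_top
    _ ≤ ENNReal.ofReal (δ ^ (-(((d : ℝ) + 2) * r))) *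
        (ENNReal.ofReal (C * δ ^ (((d : ℝ) + 2) * r - (d + 1 - γ) - ε)) * ∫⁻ y, f y ^ r) :=
        mul_le_mul' le_rfl hmain
    _ = _ := by
        rw [← mul_assoc, ← ENNReal.ofReal_mul (by positivity)]
        congr 2
        calc δ ^ (-(((d : ℝ) + 2) * r)) * (C * δ ^ (((d : ℝ) + 2) * r - (d + 1 - γ) - ε)) =
              C * (δ ^ (-(((d : ℝ) + 2) * r)) * δ ^ (((d : ℝ) + 2) * r - (d + 1 - γ) - ε)) := by
              ring
          _ = _ := by
              rw [← Real.rpow_add hδ]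
              congr 2
              ring

end Pool.Agent.Results.MP_5168f5_an.GenericDilates
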