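import Pool.Agent.H805R3.Kk.Final

set_option autoImplicit false

/-!
# MP_5168f5: Kakeya maximal estimates for almost every diagonal perturbation of every family

Work in `ℝ^{d+1} = ℝ^d × ℝ` (`Space d`), `n = d + 1`.  For `v` in the closed unit ball of `ℝ^d`
the line number `v` of the family given by `b : ℝ^d → ℝ^d` is `{(b v + s v, s) : s ∈ ℝ}`; its
direction is `(v, 1)`.  `lineMax δ b f v` is the supremum of the averages of `|f|` over the
`δ`-tubes of length one with axis on the line number `v` of the family `b`.

Let `a` be *any* measurable family and perturb it by a diagonal linear map,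
`b v = a v + (l_1 v_1, ..., l_d v_d)`.  For Lebesgue almost every `l ∈ ℝ^d` the maximal function of
the perturbed family is bounded in `L^p`, for all `p ≥ 2` (in particular for `p = n`), with only a
logarithmic loss in `δ`, with respect to a weight `ω` on the set of directions which does not
depend on `f`, `δ` and `p` and whose inverse is integrable.
-/

open MeasureTheory Set Filter Topology ENNReal NNReal Metric

namespace Pool.Agent.Results.MP_5168f5_an.GenericPerturbation

open Pool.Agent.H803R2.KakFTO

/-- The family `a` perturbed by the diagonal linear map with entries `l`. -/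
noncomputable def perturb {d : ℕ} (a : Vec d → Vec d) (l : Fin d → ℝ) (v : Vec d) : Vec d :=
  a v + WithLp.toLp 2 (fun i => l i * v i)

/-- `f` vanishes at the heights `t` with `|t| > H`. -/
def VanishesAbove {d : ℕ} (H : ℝ) (f : Space d → ℝ) : Prop :=
  ∀ (y : Vec d) (t : ℝ), H < |t| → f (WithLp.toLp 2 (y, t)) = 0

/-- The `L^p` estimates, for all `p ≥ 2` and all `0 < δ < 1`, for the maximal function of the
family `b` with respect to the weight `ω` on the unit ball of directions, with the constants `C p`
and the loss `(1 + log (1/δ))^(d+2)`, for functions living at the heights `|t| ≤ H`. -/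
def WeightedBounds {d : ℕ} (C : ℝ → ℝ) (b : Vec d → Vec d) (H : ℝ) (ω : Vec d → ℝ≥0∞) : Prop :=
  ∀ (p δ : ℝ) (f : Space d → ℝ), 2 ≤ p → 0 < δ → δ < 1 → AEMeasurable f volume →
    VanishesAbove H f →
    ∫⁻ v in closedBall (0 : Vec d) 1, ω v * lineMax δ b f v ^ p
      ≤ ENNReal.ofReal (C p * (1 + Real.log (1 / δ)) ^ (d + 2)) * ∫⁻ y, ‖f y‖ₑ ^ p

/-- **Kakeya maximal estimates for almost every diagonal perturbation of every measurable family
of lines**, with a logarithmic loss, with respect to a weight with integrable inverse. -/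
theorem result (d : ℕ) : ∃ C : ℝ → ℝ, ∀ a : Vec d → Vec d, Measurable a →
    ∀ᵐ l : Fin d → ℝ, ∀ H : ℝ, ∃ ω : Vec d → ℝ≥0∞, Measurable ω ∧
      ∫⁻ v in closedBall (0 : Vec d) 1, (ω v)⁻¹ < ∞ ∧ WeightedBounds C (perturb a l) H ω :=
  ⟨Pool.Agent.H805R3.Kk.Gen.cpr d, fun _ ha => Pool.Agent.H805R3.Kk.Gen.main ha⟩

end Pool.Agent.Results.MP_5168f5_an.GenericPerturbation
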