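import Pool.Agent.H805R3.Kk.Skew

set_option autoImplicit false

/-!
# MP_5168f5: the Kakeya maximal estimate for section-monotone families of lines, and for continuous
families of pairwise disjoint lines in `ℝ³`

Work in `ℝ^{d+1} = ℝ^d × ℝ` (`Space d`), `n = d + 1`.  For `v` in the closed unit ball of `ℝ^d` the
line number `v` of the family given by `b : ℝ^d → ℝ^d` is `{(b v + s v, s) : s ∈ ℝ}`; its direction is
`(v, 1)`.  `lineMax δ b f v` is the supremum of the averages of `|f|` over the `δ`-tubes of length one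
with axis on the line number `v`.

`SectionMonotone T B b` (`T` a set of heights): for almost every height `t ∈ T` there is an
invertible linear map `K = K_t` of `ℝ^d` such that `K ∘ F_t` is a monotone map on `B`, where
`F_t v = b v + t v` is the section of the family at height `t`.  No regularity (not even
measurability) of `b` is assumed.
-/

open MeasureTheory Set Filter Topology ENNReal NNReal Metric

namespace Pool.Agent.Results.MP_5168f5_an.MonotoneFamilies

open Pool.Agent.H803R2.KakFTO Pool.Agent.H805R3.Kk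

/-- The Kakeya maximal estimate at the exponent `n = d + 1` for the lines of the family `b` with
directions in `B`, with constant `A` and loss `(1 + log (1/δ))^d`. -/
def KakeyaBound {d : ℕ} (A : ℝ) (B : Set (Vec d)) (b : Vec d → Vec d) (δ : ℝ) (f : Space d → ℝ) :
    Prop :=
  ∫⁻ v in B, lineMax δ b f v ^ (d + 1)
    ≤ ENNReal.ofReal (A * (1 + Real.log (1 / δ)) ^ d) * ∫⁻ y, ‖f y‖ₑ ^ (d + 1)

/-- `f` vanishes at the heights outside `T`. -/
def VanishesOff {d : ℕ} (T : Set ℝ) (f : Space d → ℝ) : Prop :=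
  ∀ (y : Vec d) (t : ℝ), t ∉ T → f (WithLp.toLp 2 (y, t)) = 0

/-- On the measurable set `B` of directions, `b` is `δ`-close to a family that is section-monotone
for the heights in `T`. -/
def NearMonotone {d : ℕ} (T : Set ℝ) (δ : ℝ) (B : Set (Vec d)) (b : Vec d → Vec d) : Prop :=
  MeasurableSet B ∧ B ⊆ closedBall 0 1 ∧
    ∃ g : Vec d → Vec d, SectionMonotone T B g ∧ ∀ v ∈ B, ‖b v - g v‖ ≤ δ

/-- `K ∘ b` is monotone on `B`. -/
def KMonotone {d : ℕ} (K : Vec d →L[ℝ] Vec d) (B : Set (Vec d)) (b : Vec d → Vec d) : Prop :=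
  ∀ v ∈ B, ∀ w ∈ B, 0 ≤ inner ℝ (K (b v - b w)) (v - w)

/-- A continuous family of pairwise disjoint lines in `ℝ³`. -/
def DisjointLines (b : Vec 2 → Vec 2) : Prop :=
  ContinuousOn b (ball 0 1) ∧ ∀ v ∈ ball (0 : Vec 2) 1, ∀ w ∈ ball (0 : Vec 2) 1, v ≠ w →
    ∀ t : ℝ, b v + t • v ≠ b w + t • w

/-- **Kakeya maximal estimate for section-monotone families of lines**, at the exponent
`n = d + 1`, with a loss of `(1 + log (1/δ))^(n-1)`:

* (general estimate) for functions `f` living at heights in `T` and families that consist of `N`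
  pieces, each `δ`-close to a family that is section-monotone at almost all heights in `T`;
* (symplectically monotone families, `n` odd, all heights) if `ω(x, y) = ⟨K x, y⟩` is a symplectic
  form and `ω(b v - b w, v - w) ≥ 0` for all `v, w ∈ B`, then `b` is section-monotone on `B`;
* (monotone families, all `n`, heights `t ≥ 0`) the same with an invertible `K` such that
  `⟨K v, v⟩ ≥ 0`, e.g. `K = 1`;
* (`n = 3`) the estimate holds for every continuous family of pairwise disjoint lines. -/
theorem result :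
    (∀ d : ℕ, 1 ≤ d → ∃ C : ℝ, 0 < C ∧
      ∀ (T : Set ℝ) (N : ℕ) (B : Fin N → Set (Vec d)) (b : Vec d → Vec d) (δ : ℝ)
        (f : Space d → ℝ), MeasurableSet T → 0 < δ → δ < 1 → (∀ j, NearMonotone T δ (B j) b) →
        AEMeasurable f volume → VanishesOff T f → KakeyaBound (C * N) (⋃ j, B j) b δ f) ∧
    (∀ (d : ℕ) (K : Vec d →L[ℝ] Vec d) (B : Set (Vec d)) (b : Vec d → Vec d), K.det ≠ 0 →
      KMonotone K B b → ((∀ v, inner ℝ (K v) v = 0) → SectionMonotone univ B b) ∧
      ((∀ v, 0 ≤ inner ℝ (K v) v) → SectionMonotone (Ici 0) B b)) ∧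
    (∃ C : ℝ, 0 < C ∧ ∀ (b : Vec 2 → Vec 2) (δ : ℝ) (f : Space 2 → ℝ), DisjointLines b →
      0 < δ → δ < 1 → AEMeasurable f volume → KakeyaBound C (ball 0 1) b δ f) := by
  refine ⟨?_, ?_, ?_⟩
  · intro d hd
    refine ⟨cst d, cst_pos hd, ?_⟩
    intro T N B b δ f hT hδ hδ1 hB hf hfT
    choose hBm hB1 g hg hbg using hB
    exact pieces hd hT (fun j => ⟨hBm j, hB1 j⟩) hg hbg hδ hδ1 hf hfT
  · intro d K B b hK hm
    exact ⟨fun hanti => sectionMonotone_of_symplectic hK hanti hm,
      fun hpos => sectionMonotone_of_mono hK hpos hm⟩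
  · refine ⟨cst 2, cst_pos (by norm_num), ?_⟩
    rintro b δ f ⟨hb, hdisj⟩ hδ hδ1 hf
    have h := pieces (d := 2) (N := 1) (T := univ) (B := fun _ => ball 0 1)
      (g := fun _ => b) (b := b) (δ := δ)
      (f := f) (by norm_num) MeasurableSet.univ
      (fun _ => ⟨measurableSet_ball, ball_subset_closedBall⟩)
      (fun _ => sectionMonotone_of_disjoint hb hdisj) (fun _ v _ => by simpa using hδ.le) hδ hδ1 hf
      (fun _ _ h => absurd (mem_univ _) h)
    rw [iUnion_const] at h
    simpa [KakeyaBound] using h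

end Pool.Agent.Results.MP_5168f5_an.MonotoneFamilies
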